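import Pool.Agent.H429R4.KS.Core

/-!
# The number of visible vectors is at most the number of wirings
-/

namespace Pool.Agent.H429R4.KS

open Matrix Finset
open Pool.Agent.H525R2.Sym (Clause Holds Satisfiable numTrue bits change)
open Pool.Agent.H525R2
open Pool.Agent.H429R4.Sem (Circuit)

set_option linter.unusedSectionVars false

variable {V D L : Type} [Fintype V] [DecidableEq V] {k : ℕ}

/-- The action of a sign change on wirings. -/
def act (u : V → ZMod 2) (x : Option (Formula k V → Bool) × Multiset (L × (Formula k V → D))) :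
    Option (Formula k V → Bool) × Multiset (L × (Formula k V → D)) :=
  (x.1.map fun F φ => F (flip u φ), x.2.map fun e => (e.1, fun φ => e.2 (flip u φ)))

theorem view_add (C : Circuit (Clause V) D L) (g : C.Gate) (s u : V → ZMod 2) :
    view k C g (s + u) = act u (view k C g s) := by
  unfold view act
  simp only [Option.map_map, Multiset.map_map, Function.comp_def, flip_add]

variable {n M : ℕ} (ι : Fin k × Fin n ↪ V)

/-- The vectors that are visible to some gate. -/
noncomputable def visible (Γ : AddSubgroup (V → ZMod 2)) (C : Circuit (Clause V) D L) :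
    Finset (Fin k × Fin n → ZMod 2) :=
  open Classical in
  univ.filter fun w => ∃ g, ∀ u ∈ fixer ι Γ (equiv_view k C g), w ⬝ᵥ u = 0

theorem fixer_le_of_range (Γ : AddSubgroup (V → ZMod 2)) (C : Circuit (Clause V) D L)
    (g g' : C.Gate) (h : (Set.range fun s : Γ => view k C g s.1) =
      Set.range fun s : Γ => view k C g' s.1) :
    fixer ι Γ (equiv_view k C g) ≤ fixer ι Γ (equiv_view k C g') := by
  rintro _ ⟨s, hs, h1, rfl⟩
  refine ⟨s, hs, ?_, rfl⟩
  have h2 : view k C g' 0 ∈ Set.range fun s : Γ => view k C g s.1 := by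
    rw [h]
    exact ⟨0, rfl⟩
  obtain ⟨⟨s₀, hs₀⟩, h3⟩ := h2
  have h4 : view k C g s₀ = view k C g' 0 := h3
  calc view k C g' s = view k C g' (0 + s) := by rw [zero_add]
    _ = act s (view k C g' 0) := view_add C g' 0 s
    _ = act s (view k C g s₀) := by rw [h4]
    _ = view k C g (s₀ + s) := (view_add C g s₀ s).symm
    _ = view k C g (s + s₀) := by rw [add_comm]
    _ = act s₀ (view k C g s) := view_add C g s s₀
    _ = act s₀ (view k C g 0) := by rw [h1]
    _ = view k C g (0 + s₀) := (view_add C g 0 s₀).symm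
    _ = view k C g' 0 := by rw [zero_add, h4]

theorem finite_wirings (Γ : AddSubgroup (V → ZMod 2)) (C : Circuit (Clause V) D L) :
    Finite (wirings k C Γ) := by
  let _ := C.finite
  have h : wirings k C Γ = Set.range fun p : C.Gate × Γ => view k C p.1 p.2.1 := by
    ext x
    constructor
    · rintro ⟨g, s, hs, rfl⟩
      exact ⟨(g, ⟨s, hs⟩), rfl⟩
    · rintro ⟨⟨g, s, hs⟩, rfl⟩
      exact ⟨g, s, hs, rfl⟩
  rw [h]
  exact Set.finite_range _

theorem card_visible_le (Γ : AddSubgroup (V → ZMod 2)) (C : Circuit (Clause V) D L)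
    (hsh : ∀ u : Fin k × Fin n → ZMod 2, ∃ s ∈ Γ, (fun p => s (ι p)) = u) :
    (visible ι Γ C).card ≤ numWirings k C Γ := by
  classical
  let _ := C.finite
  let rng : C.Gate → Set (Option (Formula k V → Bool) × Multiset (L × (Formula k V → D))) :=
    fun g => Set.range fun s : Γ => view k C g s.1
  let O := univ.image rng
  have hrep : ∀ o : O, ∃ g, rng g = o.1 := by
    rintro ⟨o, ho⟩
    rw [mem_image] at ho
    obtain ⟨g, -, hg⟩ := ho
    exact ⟨g, hg⟩
  choose rep hrep using hrep
  have h1 : visible ι Γ C ⊆ (univ : Finset O).biUnion fun o =>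
      univ.filter fun w => ∀ u ∈ fixer ι Γ (equiv_view k C (rep o)), w ⬝ᵥ u = 0 := by
    intro w hw
    simp only [visible, mem_filter, mem_univ, true_and] at hw
    obtain ⟨g, hg⟩ := hw
    simp only [mem_biUnion, mem_univ, true_and, mem_filter]
    refine ⟨⟨rng g, mem_image_of_mem _ (mem_univ g)⟩, fun u hu => hg u ?_⟩
    exact fixer_le_of_range ι Γ C _ _ (hrep _) hu
  refine (card_le_card h1).trans ?_
  refine card_biUnion_le.trans ?_
  have h2 : ∀ o : O, (univ.filter fun w : Fin k × Fin n → ZMod 2 =>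
      ∀ u ∈ fixer ι Γ (equiv_view k C (rep o)), w ⬝ᵥ u = 0).card ≤ Nat.card o.1 := by
    intro o
    have h2 := Sym.card_annihilator (J := Fin k × Fin n) (fixer ι Γ (equiv_view k C (rep o)))
    have h3 := card_quotient_fixer_le ι Γ (equiv_view k C (rep o)) hsh
    rw [← h2, Nat.card_eq_fintype_card, Fintype.card_subtype] at h3
    refine h3.trans (le_of_eq ?_)
    rw [← hrep o]
  refine (sum_le_sum fun o _ => h2 o).trans ?_
  have hfin : ∀ o : O, Finite o.1 := by
    intro o
    rw [← hrep o]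
    exact Set.finite_range _
  have hW := finite_wirings (k := k) Γ C
  rw [← Nat.card_sigma]
  unfold numWirings
  refine Nat.card_le_card_of_injective (fun p : (o : O) × o.1 =>
    (⟨p.2.1, ?_⟩ : wirings k C Γ)) ?_
  · obtain ⟨o, x, hx⟩ := p
    rw [← hrep o] at hx
    obtain ⟨⟨s, hs⟩, rfl⟩ := hx
    exact ⟨rep o, s, hs, rfl⟩
  · rintro ⟨o, x, hx⟩ ⟨o', x', hx'⟩ e
    have e1 : x = x' := congrArg Subtype.val e
    subst e1
    have key : ∀ o o' : O, x ∈ o.1 → x ∈ o'.1 → o.1 ⊆ o'.1 := by
      intro o o' hx hx' z hz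
      rw [← hrep o] at hx hz
      rw [← hrep o'] at hx' ⊢
      obtain ⟨⟨s, hs⟩, h3⟩ := hx
      obtain ⟨⟨s', hs'⟩, h4⟩ := hx'
      obtain ⟨⟨s₂, hs₂⟩, h5⟩ := hz
      have h6 : view k C (rep o) s = view k C (rep o') s' := h3.trans h4.symm
      have h7 : view k C (rep o) s₂ = z := h5
      refine ⟨⟨s' + s + s₂, Γ.add_mem (Γ.add_mem hs' hs) hs₂⟩, ?_⟩
      change view k C (rep o') (s' + s + s₂) = z
      rw [add_assoc, view_add, ← h6, ← view_add, ← add_assoc, add_self_sign, zero_add, h7]
    have h8 : o = o' := Subtype.ext (Set.Subset.antisymm (key o o' hx hx') (key o' o hx' hx))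
    subst h8
    rfl

/-- A system is good if no few equations have the sum zero, and no middle number of equations have
a sum in the set `W`. -/
def Good (t : ℕ) (W : Finset (Fin k × Fin n → ZMod 2)) (y : Fin M → Fin k → Fin n) : Prop :=
  (∀ x : Fin M → ZMod 2, x ≠ 0 → hammingNorm x < t → x ᵥ* mat y ≠ 0) ∧
    ∀ x : Fin M → ZMod 2, t ≤ hammingNorm x → hammingNorm x < 2 * t → x ᵥ* mat y ∉ W

/-- If the system is good for the circuit then all right-hand sides look the same to it, up to a
sign change. -/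
theorem exists_sign_of_good (Γ : AddSubgroup (V → ZMod 2)) (C : Circuit (Clause V) D L)
    (y : Fin M → Fin k → Fin n) {t : ℕ} (ht : 1 < t) (hy : Good t (visible ι Γ C) y)
    (b : Fin M → ZMod 2) :
    ∃ u₀ : Fin k × Fin n → ZMod 2, ∀ u,
      C.output (bits (sys ι y (mat y *ᵥ (u + u₀)))) =
        C.output (bits (sys ι y (b + mat y *ᵥ u))) := by
  classical
  obtain ⟨hy1, hy2⟩ := hy
  have hmid : ∀ g, ∀ x : Fin M → ZMod 2, t ≤ hammingNorm x → hammingNorm x < 2 * t →
      ∃ u ∈ fixer ι Γ (equiv_view k C g), (x ᵥ* mat y) ⬝ᵥ u ≠ 0 := by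
    intro g x hx1 hx2
    have h1 := hy2 x hx1 hx2
    simp only [visible, mem_filter, mem_univ, true_and, not_exists, not_forall] at h1
    obtain ⟨u, hu, hu'⟩ := h1 g
    exact ⟨u, hu, hu'⟩
  have hinv : Sym.Inv (mat y) t (⊤ : Submodule (ZMod 2) (Fin k × Fin n → ZMod 2)) b := by
    intro x hx hx'
    by_cases h0 : x = 0
    · rw [h0, zero_dotProduct]
    · exfalso
      apply hy1 x h0 hx
      funext p
      have := hx' (Pi.single p 1) trivial
      rwa [dotProduct_single_one] at this
  obtain ⟨u₀, -, hu₀⟩ := Sym.exists_shift (lt_trans one_pos ht)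
    (H' := fixer ι Γ (equiv_fun (value k C C.out))) (fun x hx1 hx2 => by
      obtain ⟨u, hu, hne⟩ := hmid C.out x hx1 hx2
      exact ⟨u, fixer_view_le ι C Γ C.out hu, hne⟩) hinv
  refine ⟨u₀, fun u => ?_⟩
  have h := value_shift ι C Γ y ht hmid C.out _ (mat y *ᵥ (u + u₀)) hu₀
  have e : mat y *ᵥ (u + u₀) + (b + mat y *ᵥ u₀) = b + mat y *ᵥ u := by
    rw [Matrix.mulVec_add, add_comm b, ← add_assoc, add_assoc _ _ (mat y *ᵥ u₀),
      Sym.add_self_fun, add_zero, add_comm]
  rw [e] at h
  exact h.symm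

end Pool.Agent.H429R4.KS
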