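import Pool.Agent.H429R4.Sem.Defs

/-!
# Circuits on `k`-CNF formulas and the sign transforms of their wirings: definitions
-/

namespace Pool.Agent.H429R4.KS

open Pool.Agent.H525R2.Sym (Clause Holds Satisfiable numTrue bits change)
open Pool.Agent.H429R4.Sem (Circuit)

variable {V D L : Type} [DecidableEq V]

/-- Every clause of `φ` consists of `k` literals with `k` different letters. -/
def IsKCNF (k : ℕ) (φ : Finset (Clause V)) : Prop :=
  ∀ c ∈ φ, c.card = k ∧ ∀ l ∈ c, ∀ l' ∈ c, l.1 = l'.1 → l = l'

/-- The `k`-CNF formulas over the letters `V`. -/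
abbrev Formula (k : ℕ) (V : Type) := {φ : Finset (Clause V) // IsKCNF k φ}

theorem isKCNF_image {k : ℕ} {φ : Finset (Clause V)} (h : IsKCNF k φ) (s : V → ZMod 2) :
    IsKCNF k (φ.image (change s)) := by
  intro c hc
  rw [Finset.mem_image] at hc
  obtain ⟨c, hc, rfl⟩ := hc
  obtain ⟨h1, h2⟩ := h c hc
  have hinj : Function.Injective fun l : V × ZMod 2 => (l.1, l.2 + s l.1) := by
    intro l l' e
    rw [Prod.mk.injEq] at e
    obtain ⟨e1, e2⟩ := e
    rw [e1] at e2
    exact Prod.ext e1 (add_right_cancel e2)
  refine ⟨?_, ?_⟩
  · unfold change
    rw [Finset.card_image_of_injective _ hinj, h1]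
  · intro l hl l' hl' e
    unfold change at hl hl'
    rw [Finset.mem_image] at hl hl'
    obtain ⟨i, hi, rfl⟩ := hl
    obtain ⟨i', hi', rfl⟩ := hl'
    have := h2 i hi i' hi' e
    rw [this]

/-- The formula `φ` with all letters `v` with `s v = 1` negated. -/
def flip {k : ℕ} (s : V → ZMod 2) (φ : Formula k V) : Formula k V :=
  ⟨φ.1.image (change s), isKCNF_image φ.2 s⟩

/-- The function computed at the gate `g`: its value when the input bits describe the formula. -/
def value (k : ℕ) (C : Circuit (Clause V) D L) (g : C.Gate) (φ : Formula k V) : D :=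
  C.eval (bits φ.1) g

/-- What enters the gate `g`, transformed by the sign change `s`: the input bit read by `g` as a
function of the formula, and the multiset of the labels and functions on the wires. -/
def view (k : ℕ) (C : Circuit (Clause V) D L) (g : C.Gate) (s : V → ZMod 2) :
    Option (Formula k V → Bool) × Multiset (L × (Formula k V → D)) :=
  ((C.read g).map fun c φ => bits (flip s φ).1 c,
    (C.wires g).map fun e => (e.1, fun φ => value k C e.2 (flip s φ)))

/-- The set of all transforms of the wirings of all gates under the group `Γ` of sign changes. -/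
def wirings (k : ℕ) (C : Circuit (Clause V) D L) (Γ : AddSubgroup (V → ZMod 2)) :
    Set (Option (Formula k V → Bool) × Multiset (L × (Formula k V → D))) :=
  {x | ∃ g, ∃ s ∈ Γ, view k C g s = x}

/-- The number of different transforms of the wirings of the gates under `Γ`. If every sign change
in `Γ` extends to an automorphism of the circuit then this is at most the number of gates. -/
noncomputable def numWirings (k : ℕ) (C : Circuit (Clause V) D L)
    (Γ : AddSubgroup (V → ZMod 2)) : ℕ :=
  Nat.card (wirings k C Γ)

end Pool.Agent.H429R4.KS
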