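import Pool.Agent.H525R2.Sym.Formula
import Pool.Agent.H429R4.KS.Defs
import Pool.Agent.H429R4.KS.Count

/-!
# `k`-CNF formulas that express linear equations
-/

namespace Pool.Agent.H429R4.KS

open Matrix Finset
open Pool.Agent.H525R2.Sym (Clause Holds Satisfiable numTrue bits change Cmp changePerm
  changePerm_apply change_change add_self_fun)

variable {V D : Type} [DecidableEq V]

variable {k n M : ℕ} (ι : Fin k × Fin n ↪ V)

/-- The clause on the letters `ι (a, u a)` that is false exactly for the values `p a`. -/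
def clauseOf (u : Fin k → Fin n) (p : Fin k → ZMod 2) : Clause V :=
  univ.image fun a : Fin k => (ι (a, u a), p a + 1)

theorem mem_clauseOf {u : Fin k → Fin n} {p : Fin k → ZMod 2} {l : V × ZMod 2} :
    l ∈ clauseOf ι u p ↔ ∃ a, (ι (a, u a), p a + 1) = l := by
  unfold clauseOf
  simp

theorem clauseOf_inj {u u' : Fin k → Fin n} {p p' : Fin k → ZMod 2}
    (h : clauseOf ι u p = clauseOf ι u' p') : u = u' ∧ p = p' := by
  have key : ∀ a, u a = u' a ∧ p a = p' a := by
    intro a
    have h1 : (ι (a, u a), p a + 1) ∈ clauseOf ι u p := (mem_clauseOf ι).2 ⟨a, rfl⟩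
    rw [h, mem_clauseOf] at h1
    obtain ⟨a', ha'⟩ := h1
    rw [Prod.mk.injEq] at ha'
    have h2 := ι.injective ha'.1
    rw [Prod.mk.injEq] at h2
    obtain ⟨rfl, h3⟩ := h2
    exact ⟨h3.symm, (add_right_cancel ha'.2).symm⟩
  exact ⟨funext fun a => (key a).1, funext fun a => (key a).2⟩

/-- The `k`-CNF formula that expresses the equations
`x_{0,y_j(0)} + ... + x_{k-1,y_j(k-1)} = b_j`. -/
def sys (y : Fin M → Fin k → Fin n) (b : Fin M → ZMod 2) : Finset (Clause V) :=
  univ.biUnion fun j : Fin M =>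
    (univ.filter fun p : Fin k → ZMod 2 => ∑ a, p a = b j + 1).image (clauseOf ι (y j))

theorem mem_sys {y : Fin M → Fin k → Fin n} {b : Fin M → ZMod 2} {c : Clause V} :
    c ∈ sys ι y b ↔ ∃ j p, ∑ a, p a = b j + 1 ∧ clauseOf ι (y j) p = c := by
  unfold sys
  simp

theorem clauseOf_kcnf (u : Fin k → Fin n) (p : Fin k → ZMod 2) :
    (clauseOf ι u p).card = k ∧
      ∀ l ∈ clauseOf ι u p, ∀ l' ∈ clauseOf ι u p, l.1 = l'.1 → l = l' := by
  constructor
  · unfold clauseOf
    rw [card_image_of_injective]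
    · simp
    · intro a a' h
      rw [Prod.mk.injEq] at h
      have := ι.injective h.1
      rw [Prod.mk.injEq] at this
      exact this.1
  · intro l hl l' hl' h
    rw [mem_clauseOf] at hl hl'
    obtain ⟨a, rfl⟩ := hl
    obtain ⟨a', rfl⟩ := hl'
    have := ι.injective h
    rw [Prod.mk.injEq] at this
    rw [this.1]

theorem sys_kcnf (y : Fin M → Fin k → Fin n) (b : Fin M → ZMod 2) : IsKCNF k (sys ι y b) := by
  intro c hc
  rw [mem_sys] at hc
  obtain ⟨j, p, _, rfl⟩ := hc
  exact clauseOf_kcnf ι _ _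

theorem sys_zero_satisfiable (y : Fin M → Fin k → Fin n) : Satisfiable (sys ι y 0) := by
  refine ⟨fun _ => 0, fun c hc => ?_⟩
  rw [mem_sys] at hc
  obtain ⟨j, p, hp, rfl⟩ := hc
  have h : ∃ a, p a = 1 := by
    by_contra hcon
    push Not at hcon
    have h0 : ∀ a, p a = 0 := by
      intro a
      have h1 := hcon a
      generalize p a = c at h1
      revert c
      decide
    rw [sum_eq_zero fun a _ => h0 a] at hp
    simp at hp
  obtain ⟨a, ha⟩ := h
  refine ⟨_, (mem_clauseOf ι).2 ⟨a, rfl⟩, ?_⟩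
  change (0 : ZMod 2) = p a + 1
  rw [ha]
  decide

theorem card_pattern (hk : 0 < k) (c : ZMod 2) :
    (univ.filter fun p : Fin k → ZMod 2 => ∑ a, p a = c).card = 2 ^ (k - 1) := by
  obtain ⟨k', rfl⟩ : ∃ k', k = k' + 1 := ⟨k - 1, by omega⟩
  have h1 : (univ : Finset (Fin k' → ZMod 2)).card = 2 ^ (k' + 1 - 1) := by
    rw [card_univ, Fintype.card_fun, ZMod.card, Fintype.card_fin]
    rfl
  rw [← h1]
  refine card_bij' (fun p _ => Fin.tail p) (fun q _ => Fin.cons (c - ∑ a, q a) q) ?_ ?_ ?_ ?_
  · intro p _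
    exact mem_univ _
  · intro q _
    rw [mem_filter]
    refine ⟨mem_univ _, ?_⟩
    rw [Fin.sum_univ_succ]
    simp
  · intro p hp
    rw [mem_filter] at hp
    have h2 := hp.2
    rw [Fin.sum_univ_succ] at h2
    have h3 : c - ∑ a, Fin.tail p a = p 0 := by
      rw [← h2]
      simp [Fin.tail]
    rw [h3]
    exact Fin.cons_self_tail p
  · intro q _
    exact Fin.tail_cons _ _

theorem card_sys (hk : 0 < k) {y : Fin M → Fin k → Fin n} (hy : Function.Injective y)
    (b : Fin M → ZMod 2) : (sys ι y b).card = 2 ^ (k - 1) * M := by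
  unfold sys
  rw [card_biUnion]
  · have h : ∀ j ∈ (univ : Finset (Fin M)),
        ((univ.filter fun p : Fin k → ZMod 2 => ∑ a, p a = b j + 1).image
          (clauseOf ι (y j))).card = 2 ^ (k - 1) := by
      intro j _
      rw [card_image_of_injective, card_pattern hk]
      intro p p' h
      exact (clauseOf_inj ι h).2
    rw [sum_congr rfl h, sum_const, card_univ, Fintype.card_fin, smul_eq_mul, mul_comm]
  · intro j _ j' _ hjj
    rw [Function.onFun, disjoint_left]
    intro c hc hc'
    rw [mem_image] at hc hc'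
    obtain ⟨p, _, rfl⟩ := hc
    obtain ⟨p', _, h⟩ := hc'
    exact hjj (hy (clauseOf_inj ι h).1).symm

theorem numTrue_le (hk : 0 < k) (y : Fin M → Fin k → Fin n) (b : Fin M → ZMod 2)
    (α : V → ZMod 2) : numTrue α (sys ι y b) ≤
      (2 ^ (k - 1) - 1) * M + (univ.filter fun j => (mat y *ᵥ fun p => α (ι p)) j = b j).card := by
  classical
  unfold numTrue
  have h1 : (sys ι y b).filter (Holds α) ⊆ univ.biUnion fun j : Fin M =>
      (univ.filter fun p : Fin k → ZMod 2 => ∑ a, p a = b j + 1 ∧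
        p ≠ fun a => α (ι (a, y j a))).image (clauseOf ι (y j)) := by
    intro c hc
    rw [mem_filter, mem_sys] at hc
    obtain ⟨⟨j, p, hp, rfl⟩, hα⟩ := hc
    rw [mem_biUnion]
    refine ⟨j, mem_univ _, ?_⟩
    rw [mem_image]
    refine ⟨p, ?_, rfl⟩
    rw [mem_filter]
    refine ⟨mem_univ _, hp, ?_⟩
    rintro rfl
    obtain ⟨l, hl, hl'⟩ := hα
    rw [mem_clauseOf] at hl
    obtain ⟨a, rfl⟩ := hl
    simp at hl'
  refine (card_le_card h1).trans (card_biUnion_le.trans ?_)
  have h2 : ∀ j : Fin M, ((univ.filter fun p : Fin k → ZMod 2 => ∑ a, p a = b j + 1 ∧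
        p ≠ fun a => α (ι (a, y j a))).image (clauseOf ι (y j))).card ≤
      (2 ^ (k - 1) - 1) + if (mat y *ᵥ fun p => α (ι p)) j = b j then 1 else 0 := by
    intro j
    refine card_image_le.trans ?_
    have h3 : (univ.filter fun p : Fin k → ZMod 2 => ∑ a, p a = b j + 1 ∧
        p ≠ fun a => α (ι (a, y j a))) =
        (univ.filter fun p : Fin k → ZMod 2 => ∑ a, p a = b j + 1).erase
          (fun a => α (ι (a, y j a))) := by
      ext p
      simp only [mem_filter, mem_univ, true_and, mem_erase]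
      exact and_comm
    rw [h3]
    by_cases h4 : (mat y *ᵥ fun p => α (ι p)) j = b j
    · rw [if_pos h4]
      exact (card_erase_le).trans ((card_pattern hk _).le.trans (by
        have : 0 < 2 ^ (k - 1) := by positivity
        omega))
    · rw [if_neg h4, card_erase_of_mem, card_pattern hk]
      · exact Nat.le_add_right _ _
      rw [mem_filter]
      refine ⟨mem_univ _, ?_⟩
      rw [mat_mulVec] at h4
      revert h4
      generalize ∑ a, α (ι (a, y j a)) = v
      generalize b j = w
      revert v w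
      decide
  refine (sum_le_sum fun j _ => h2 j).trans (le_of_eq ?_)
  rw [sum_add_distrib, sum_const, card_univ, Fintype.card_fin, smul_eq_mul, mul_comm,
    card_filter]

/-- The instance map. -/
def inst (y : Fin M → Fin k → Fin n) (b : Fin M → ZMod 2) : Clause V → Bool := bits (sys ι y b)

theorem change_clauseOf (s : V → ZMod 2) (u : Fin k → Fin n) (p : Fin k → ZMod 2) :
    change s (clauseOf ι u p) = clauseOf ι u (fun a => p a + s (ι (a, u a))) := by
  unfold change clauseOf
  rw [image_image]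
  refine image_congr fun a _ => ?_
  simp only [Function.comp_apply, Prod.mk.injEq, true_and]
  ring

theorem change_mem_sys {s : V → ZMod 2} {y : Fin M → Fin k → Fin n} {b : Fin M → ZMod 2}
    {c : Clause V} (hc : c ∈ sys ι y b) :
    change s c ∈ sys ι y (b + mat y *ᵥ fun p => s (ι p)) := by
  rw [mem_sys] at hc ⊢
  obtain ⟨j, p, hp, rfl⟩ := hc
  refine ⟨j, fun a => p a + s (ι (a, y j a)), ?_, (change_clauseOf ι s _ _).symm⟩
  rw [sum_add_distrib, hp, Pi.add_apply, mat_mulVec]
  ring

theorem cmp_change (s : V → ZMod 2) :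
    Cmp (Y := Fin M → Fin k → Fin n) mat (inst ι) (fun p => s (ι p)) (changePerm s) := by
  intro y b c
  unfold inst bits
  rw [decide_eq_decide, changePerm_apply]
  constructor
  · intro h
    have := change_mem_sys ι (s := s) h
    rw [change_change, add_assoc, add_self_fun, add_zero] at this
    exact this
  · exact change_mem_sys ι

theorem inst_local {y : Fin M → Fin k → Fin n} (c : Clause V) (b τ : Fin M → ZMod 2)
    (h : ∀ j, τ j ≠ 0 → ∃ s ρ, Cmp (Y := Fin M → Fin k → Fin n) mat (inst ι) s ρ ∧ ρ c = c ∧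
      (mat y *ᵥ s) j ≠ 0) : inst ι y (b + τ) c = inst ι y b c := by
  have key : ∀ j p, clauseOf ι (y j) p = c → τ j = 0 := by
    intro j p hc
    by_contra hj
    obtain ⟨s, ρ, h1, h2, h3⟩ := h j hj
    have h4 := h1 y (fun _ => ∑ a, p a + 1) c
    rw [h2] at h4
    unfold inst bits at h4
    rw [decide_eq_decide] at h4
    have h5 : c ∈ sys ι y (fun _ => ∑ a, p a + 1) := by
      rw [mem_sys]
      refine ⟨j, p, ?_, hc⟩
      have : ∀ v : ZMod 2, v = v + 1 + 1 := by decide
      exact this _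
    rw [← h4, mem_sys] at h5
    obtain ⟨j', p', h6, h7⟩ := h5
    rw [← hc] at h7
    obtain ⟨h8, rfl⟩ := clauseOf_inj ι h7
    rw [Pi.add_apply, mat_mulVec, h8, ← mat_mulVec] at h6
    revert h6 h3
    generalize (mat y *ᵥ s) j = v
    generalize ∑ a, p' a = w
    revert v w
    decide
  unfold inst bits
  rw [decide_eq_decide, mem_sys, mem_sys]
  constructor
  · rintro ⟨j, p, h1, h2⟩
    refine ⟨j, p, ?_, h2⟩
    rw [h1, Pi.add_apply, key j p h2, add_zero]
  · rintro ⟨j, p, h1, h2⟩
    refine ⟨j, p, ?_, h2⟩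
    rw [h1, Pi.add_apply, key j p h2, add_zero]

end Pool.Agent.H429R4.KS
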