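import Pool.Agent.H429R4.Sem.Core
import Pool.Agent.H429R4.KS.Formula

/-!
# Gates with few transforms do not see invisible shifts (`k`-CNF formulas)
-/

namespace Pool.Agent.H429R4.KS

open Matrix Finset
open Pool.Agent.H525R2.Sym (Clause Holds Satisfiable numTrue bits change)
open Pool.Agent.H525R2
open Pool.Agent.H429R4.Sem (Circuit map_eq_of_shift)

set_option linter.unusedSectionVars false

variable {V D L : Type} [DecidableEq V] {k : ℕ}

theorem flip_add (s s' : V → ZMod 2) (φ : Formula k V) : flip (s + s') φ = flip s (flip s' φ) := by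
  apply Subtype.ext
  unfold flip
  simp only
  rw [image_image]
  refine image_congr fun c _ => ?_
  simp only [Function.comp_apply]
  unfold change
  rw [image_image]
  refine image_congr fun l _ => ?_
  simp only [Function.comp_apply, Pi.add_apply, Prod.mk.injEq, true_and]
  ring

theorem flip_zero (φ : Formula k V) : flip 0 φ = φ := by
  apply Subtype.ext
  unfold flip
  simp only
  have h : change (0 : V → ZMod 2) = id := by
    funext c
    unfold change
    simp
  rw [h, image_id]

theorem add_self_sign (s : V → ZMod 2) : s + s = 0 := Sym.add_self_fun s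

theorem value_eq (C : Circuit (Clause V) D L) (g : C.Gate) (φ : Formula k V) :
    value k C g φ = C.fn g ((C.read g).map (bits φ.1))
      ((C.wires g).map fun e => (e.1, value k C e.2 φ)) := by
  unfold value
  rw [Circuit.eval]
  congr 1
  exact Multiset.attach_map_val' (C.wires g) fun e => (e.1, C.eval (bits φ.1) e.2)

/-- A family of objects indexed by the sign changes on which the sign changes act. -/
def Equiv {X : Type} (T : (V → ZMod 2) → X) : Prop :=
  ∀ s s' u, T s = T s' → T (s + u) = T (s' + u)

theorem equiv_fun (F : Formula k V → D) : Equiv fun s φ => F (flip s φ) := by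
  intro s s' u h
  funext φ
  have := congrFun h (flip u φ)
  simpa only [flip_add] using this

theorem equiv_view (k : ℕ) (C : Circuit (Clause V) D L) (g : C.Gate) : Equiv (view k C g) := by
  intro s s' u h
  have key : ∀ s, view k C g (s + u) =
      ((view k C g s).1.map fun F φ => F (flip u φ),
        (view k C g s).2.map fun e => (e.1, fun φ => e.2 (flip u φ))) := by
    intro s
    unfold view
    simp only [Option.map_map, Multiset.map_map, Function.comp_def, flip_add]
  rw [key, key, h]

variable {n M : ℕ} (ι : Fin k × Fin n ↪ V)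

/-- The restrictions to the chosen letters of the sign changes in `Γ` that fix `T`. -/
def fixer {X : Type} (Γ : AddSubgroup (V → ZMod 2)) {T : (V → ZMod 2) → X} (hT : Equiv T) :
    Submodule (ZMod 2) (Fin k × Fin n → ZMod 2) where
  carrier := {u | ∃ s ∈ Γ, T s = T 0 ∧ (fun p => s (ι p)) = u}
  add_mem' := by
    rintro _ _ ⟨s, hs, h1, rfl⟩ ⟨s', hs', h1', rfl⟩
    refine ⟨s + s', Γ.add_mem hs hs', ?_, rfl⟩
    rw [hT s 0 s' h1, zero_add, h1']
  zero_mem' := ⟨0, Γ.zero_mem, rfl, rfl⟩
  smul_mem' := by
    rintro c _ ⟨s, hs, h1, rfl⟩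
    have hc : c = 0 ∨ c = 1 := by
      revert c
      decide
    rcases hc with rfl | rfl
    · rw [zero_smul]
      exact ⟨0, Γ.zero_mem, rfl, rfl⟩
    · rw [one_smul]
      exact ⟨s, hs, h1, rfl⟩

theorem mem_fixer {X : Type} {Γ : AddSubgroup (V → ZMod 2)} {T : (V → ZMod 2) → X}
    {hT : Equiv T} {u : Fin k × Fin n → ZMod 2} :
    u ∈ fixer ι Γ hT ↔ ∃ s ∈ Γ, T s = T 0 ∧ (fun p => s (ι p)) = u := Iff.rfl

theorem card_quotient_fixer_le [Finite V] {X : Type} (Γ : AddSubgroup (V → ZMod 2))
    {T : (V → ZMod 2) → X} (hT : Equiv T)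
    (hsh : ∀ u : Fin k × Fin n → ZMod 2, ∃ s ∈ Γ, (fun p => s (ι p)) = u) :
    Nat.card ((Fin k × Fin n → ZMod 2) ⧸ fixer ι Γ hT) ≤
      Nat.card (Set.range fun s : Γ => T s.1) := by
  classical
  choose σ hσ hσ' using hsh
  refine Nat.card_le_card_of_injective
    (fun q => ⟨T (σ q.out), ⟨⟨σ q.out, hσ _⟩, rfl⟩⟩) ?_
  intro q q' e'
  have e : T (σ q.out) = T (σ q'.out) := congrArg Subtype.val e'
  rw [← q.out_eq, ← q'.out_eq]
  refine (Submodule.Quotient.eq _).2 ?_
  have hneg : q.out - q'.out = q.out + q'.out := by
    funext i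
    have : ∀ a b : ZMod 2, a - b = a + b := by decide
    exact this _ _
  rw [hneg, mem_fixer]
  refine ⟨σ q.out + σ q'.out, Γ.add_mem (hσ _) (hσ _), ?_, ?_⟩
  · rw [hT _ _ _ e, add_self_sign]
  · funext p
    have h1 := congrFun (hσ' q.out) p
    have h2 := congrFun (hσ' q'.out) p
    rw [Pi.add_apply, Pi.add_apply]
    exact congrArg₂ (· + ·) h1 h2

/-- The formula that expresses a system of equations. -/
def sysF (y : Fin M → Fin k → Fin n) (b : Fin M → ZMod 2) : Formula k V :=
  ⟨sys ι y b, sys_kcnf ι y b⟩

theorem flip_sysF (s : V → ZMod 2) (y : Fin M → Fin k → Fin n) (b : Fin M → ZMod 2) :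
    flip s (sysF ι y b) = sysF ι y (b + mat y *ᵥ fun p => s (ι p)) := by
  apply Subtype.ext
  ext c
  unfold flip sysF
  simp only [mem_image]
  constructor
  · rintro ⟨c, hc, rfl⟩
    exact change_mem_sys ι hc
  · intro hc
    refine ⟨change s c, ?_, Sym.change_change s c⟩
    have := change_mem_sys ι (s := s) hc
    rwa [add_assoc, Sym.add_self_fun, add_zero] at this

/-- If a bit function is fixed by a sign change then its clause is fixed, if it can occur. -/
theorem change_eq_of_view {c : Clause V} (hc : IsKCNF k {c}) {s : V → ZMod 2}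
    (h : (fun φ : Formula k V => bits (flip s φ).1 c) = fun φ => bits (flip 0 φ).1 c) :
    change s c = c := by
  have h1 := congrFun h ⟨{c}, hc⟩
  simp only [bits] at h1
  rw [decide_eq_decide, flip_zero] at h1
  have h2 := h1.2 (by simp)
  unfold flip at h2
  simp only [image_singleton, mem_singleton] at h2
  exact h2.symm

theorem fixer_flip (Γ : AddSubgroup (V → ZMod 2)) (F : Formula k V → D) (s' : V → ZMod 2) :
    fixer ι Γ (equiv_fun fun φ => F (flip s' φ)) = fixer ι Γ (equiv_fun F) := by
  ext u
  constructor
  · rintro ⟨s₂, hs₂, h2, rfl⟩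
    refine ⟨s₂, hs₂, ?_, rfl⟩
    funext φ
    have h3 := congrFun h2 (flip s' φ)
    simp only [← flip_add, zero_add] at h3
    rw [add_comm s₂ s', ← add_assoc, add_self_sign, zero_add, flip_zero] at h3
    simp only [flip_zero]
    exact h3
  · rintro ⟨s₂, hs₂, h2, rfl⟩
    refine ⟨s₂, hs₂, ?_, rfl⟩
    funext φ
    have h3 := congrFun h2 (flip s' φ)
    simp only [flip_zero] at h3 ⊢
    rw [← flip_add, add_comm, flip_add]
    exact h3

/-- The fixer of the view is contained in the fixer of the function. -/
theorem fixer_view_le (C : Circuit (Clause V) D L) (Γ : AddSubgroup (V → ZMod 2)) (h : C.Gate) :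
    fixer ι Γ (equiv_view k C h) ≤ fixer ι Γ (equiv_fun (value k C h)) := by
  rintro _ ⟨s, hs, h1, rfl⟩
  refine ⟨s, hs, ?_, rfl⟩
  funext φ
  have key : ∀ s : V → ZMod 2, value k C h (flip s φ) =
      C.fn h ((view k C h s).1.map fun F => F φ) ((view k C h s).2.map fun e => (e.1, e.2 φ)) := by
    intro s
    rw [value_eq]
    unfold view
    simp only [Option.map_map, Multiset.map_map, Function.comp_def]
  have h2 := key s
  rw [h1, ← key 0] at h2
  exact h2

/-- Shifts that are invisible for the function computed at a gate do not change its value. -/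
theorem value_shift (C : Circuit (Clause V) D L) (Γ : AddSubgroup (V → ZMod 2))
    (y : Fin M → Fin k → Fin n) {t : ℕ} (ht : 1 < t)
    (hmid : ∀ g, ∀ x : Fin M → ZMod 2, t ≤ hammingNorm x → hammingNorm x < 2 * t →
      ∃ u ∈ fixer ι Γ (equiv_view k C g), (x ᵥ* mat y) ⬝ᵥ u ≠ 0)
    (g : C.Gate) (τ b : Fin M → ZMod 2)
    (hτ : Sym.Inv (mat y) t (fixer ι Γ (equiv_fun (value k C g))) τ) :
    value k C g (sysF ι y (b + τ)) = value k C g (sysF ι y b) := by
  classical
  induction hr : C.rank g using Nat.strong_induction_on generalizing g τ b with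
  | _ r ih =>
    obtain ⟨u, hu, hu'⟩ := Sym.exists_shift (lt_trans one_pos ht) (hmid g) hτ
    obtain ⟨s, hs, h1, rfl⟩ := hu
    set A := mat y with hA
    set τ₁ := τ + A *ᵥ (fun p => s (ι p)) with hτ₁
    set b₁ := b + A *ᵥ (fun p => s (ι p)) with hb₁
    have e1 : b + τ = b₁ + τ₁ := by
      rw [hb₁, hτ₁, add_comm τ, ← add_assoc, add_assoc b, Sym.add_self_fun, add_zero]
    have e2 : value k C g (sysF ι y b₁) = value k C g (sysF ι y b) := by
      have h2 := congrFun h1 (sysF ι y b)
      simp only [flip_zero] at h2
      rw [flip_sysF] at h2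
      exact h2
    rw [e1, ← e2, value_eq, value_eq]
    have hread : (C.read g).map (bits (sysF ι y (b₁ + τ₁)).1) =
        (C.read g).map (bits (sysF ι y b₁).1) := by
      rcases hβ : C.read g with _ | β
      · rfl
      · simp only [Option.map_some, Option.some.injEq]
        by_cases hβ3 : IsKCNF k {β}
        · refine inst_local ι β b₁ τ₁ fun j hj => ?_
          by_contra hcon
          apply hj
          have h3 : hammingNorm (Pi.single j (1 : ZMod 2) : Fin M → ZMod 2) < t := by
            refine lt_of_le_of_lt ?_ ht
            unfold hammingNorm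
            refine le_trans (Finset.card_le_card (t := {j}) fun i hi => ?_) (by simp)
            rw [Finset.mem_singleton]
            by_contra hij
            simp [Pi.single_eq_of_ne hij] at hi
          have h4 := hu' (Pi.single j 1) h3 ?_
          · rwa [single_one_dotProduct] at h4
          · rintro _ ⟨s', hs', h5, rfl⟩
            by_contra hne
            apply hcon
            refine ⟨fun p => s' (ι p), Sym.changePerm s', cmp_change ι s', ?_, ?_⟩
            · rw [Sym.changePerm_apply]
              apply change_eq_of_view hβ3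
              have h6 := congrArg Prod.fst h5
              unfold view at h6
              simp only [hβ, Option.map_some, Option.some.injEq] at h6
              exact h6
            · rw [← Matrix.dotProduct_mulVec, single_one_dotProduct] at hne
              exact hne
        · have hno : ∀ b, bits (sysF ι y b).1 β = false := by
            intro b
            unfold bits
            rw [decide_eq_false_iff_not]
            intro hcon
            apply hβ3
            intro c hc
            rw [mem_singleton] at hc
            rw [hc]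
            exact (sysF ι y b).2 β hcon
          rw [hno, hno]
    rw [hread]
    refine congrArg (C.fn g ((C.read g).map (bits (sysF ι y b₁).1))) ?_
    -- the wires
    let K : AddSubgroup (V → ZMod 2) :=
      { carrier := {s | s ∈ Γ ∧ view k C g s = view k C g 0}
        add_mem' := by
          rintro s s' ⟨hs, h⟩ ⟨hs', h'⟩
          refine ⟨Γ.add_mem hs hs', ?_⟩
          rw [equiv_view k C g s 0 s' h, zero_add, h']
        zero_mem' := ⟨Γ.zero_mem, rfl⟩
        neg_mem' := by
          rintro s ⟨hs, h⟩
          have : -s = s := by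
            rw [neg_eq_iff_add_eq_zero, add_self_sign]
          rw [this]
          exact ⟨hs, h⟩ }
    let G := L × (Formula k V → D)
    let T : (V → ZMod 2) → G → G := fun s a => (a.1, fun φ => a.2 (flip s φ))
    have hT0 : ∀ a, T 0 a = a := by
      rintro ⟨l, F⟩
      simp only [T, flip_zero]
    have hTadd : ∀ s s' a, T (s + s') a = T s (T s' a) := by
      rintro s s' ⟨l, F⟩
      refine congrArg (Prod.mk l) (funext fun φ => ?_)
      rw [add_comm, flip_add]
    let P : (Formula k V → D) → (V → ZMod 2) → Prop := fun F s' =>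
      s' ∈ K ∧ Sym.Inv A t (fixer ι Γ (equiv_fun F)) (τ₁ + A *ᵥ fun p => s' (ι p))
    let c : G → (V → ZMod 2) := fun a => if h : ∃ s', P a.2 s' then Classical.choose h else 0
    have hcK : ∀ a, c a ∈ K := by
      intro a
      change (if h : ∃ s', P a.2 s' then Classical.choose h else 0) ∈ K
      split_ifs with h
      · exact (Classical.choose_spec h).1
      · exact K.zero_mem
    have hc : ∀ s' ∈ K, ∀ a, c (T s' a) = c a := by
      intro s' _ a
      have hP : P (T s' a).2 = P a.2 := by
        funext s₂
        simp only [P, T]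
        rw [fixer_flip]
      simp only [c, hP]
    have hkey := map_eq_of_shift T hT0 hTadd K ((C.wires g).map fun e => (e.1, value k C e.2))
      (by
        rintro s' ⟨_, hs'⟩
        have h6 := congrArg Prod.snd hs'
        unfold view at h6
        simp only [flip_zero] at h6
        rw [Multiset.map_map]
        exact h6)
      (fun a => (a.1, a.2 (sysF ι y (b₁ + τ₁)))) (fun a => (a.1, a.2 (sysF ι y b₁))) c hcK hc
      (by
        intro a ha
        rw [Multiset.mem_map] at ha
        obtain ⟨⟨l, h⟩, he, rfl⟩ := ha
        have hex : ∃ s', P (value k C h) s' := by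
          obtain ⟨u, hu, hu2⟩ := Sym.exists_shift (H' := fixer ι Γ (equiv_fun (value k C h)))
            (lt_trans one_pos ht) (fun x hx1 hx2 => by
              obtain ⟨u, hu, hne⟩ := hmid h x hx1 hx2
              exact ⟨u, fixer_view_le ι C Γ h hu, hne⟩) hu'
          obtain ⟨s', hs', h5, rfl⟩ := hu
          exact ⟨s', ⟨hs', h5⟩, hu2⟩
        have hce : c (l, value k C h) = Classical.choose hex := by
          simp only [c]
          rw [dif_pos hex]
        have hsp := (Classical.choose_spec hex).2
        rw [← hce] at hsp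
        set s' := c (l, value k C h) with hs'
        have e3 := ih (C.rank h) (by rw [← hr]; exact C.rank_lt g (l, h) he) h
          (τ₁ + A *ᵥ fun p => s' (ι p)) (b₁ + A *ᵥ fun p => s' (ι p)) hsp rfl
        have e4 : (b₁ + A *ᵥ fun p => s' (ι p)) + (τ₁ + A *ᵥ fun p => s' (ι p)) = b₁ + τ₁ := by
          rw [add_comm τ₁, ← add_assoc, add_assoc b₁, Sym.add_self_fun, add_zero]
        rw [e4] at e3
        simp only [T]
        rw [flip_sysF, e3])
    simpa only [Multiset.map_map, Function.comp_def] using hkey

end Pool.Agent.H429R4.KS
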