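import Pool.Agent.H429R4.KS.Bound
import Pool.Agent.H429R4.KS.Avg

/-!
# Most systems have no visible sums of a middle number of equations
-/

namespace Pool.Agent.H429R4.KS

open Matrix Finset Filter
open Pool.Agent.H525R2.Sym (sum_by_norm)

variable {k n M : ℕ}

theorem card_systems_le (hn : 0 < n) (x : Fin M → ZMod 2) (w : Fin k × Fin n → ZMod 2) :
    ((univ.filter fun y : Fin M → Fin k → Fin n => x ᵥ* mat y = w).card : ℝ) ≤
      (univ : Finset (Fin M → Fin k → Fin n)).card * R n (hammingNorm x) ^ k := by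
  set f := hammingNorm x with hf
  have hfM : f ≤ M := by
    have := hammingNorm_le_card_fintype (x := x)
    rwa [Fintype.card_fin] at this
  have hn' : (0 : ℝ) < n := by exact_mod_cast hn
  have hcard : ((univ : Finset (Fin M → Fin k → Fin n)).card : ℝ) = ((n : ℝ) ^ k) ^ M := by
    rw [card_univ, Fintype.card_fun, Fintype.card_fun, Fintype.card_fin, Fintype.card_fin,
      Fintype.card_fin]
    push_cast
    rfl
  have h1 := card_systems_mul x w
  rw [← hf] at h1
  have h2 : ((univ : Finset (Fin M → Fin k → Fin n)).card : ℝ) * R n f ^ k * 2 ^ (k * n) =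
      ((n : ℝ) ^ k) ^ (M - f) * (∑ χ : Fin n → ZMod 2,
        |Pool.Agent.H525R2.Sym.S χ| ^ f) ^ k := by
    rw [hcard]
    unfold R
    have e2 : ((n : ℝ) ^ k) ^ M = ((n : ℝ) ^ k) ^ (M - f) * ((n : ℝ) ^ f) ^ k := by
      rw [← pow_mul, ← pow_mul, ← pow_mul, ← pow_add]
      congr 1
      rw [mul_comm f k, ← Nat.mul_add]
      congr 1
      omega
    rw [e2, div_pow, mul_pow, mul_comm k n, pow_mul]
    have h3 : ((n : ℝ) ^ f) ^ k ≠ 0 := by positivity
    have h4 : ((2 : ℝ) ^ n) ^ k ≠ 0 := by positivity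
    field_simp
  rw [← h2] at h1
  exact le_of_mul_le_mul_right h1 (by positivity)

/-- The expected number of dependencies of size `f` is at most this. -/
noncomputable def Tm (k M n f : ℕ) : ℝ := (M.choose f : ℝ) * R n f ^ k

theorem Tm_nonneg (k M n f : ℕ) : 0 ≤ Tm k M n f := by
  unfold Tm
  have := R_nonneg n f
  positivity

open Classical in
/-- The union bound. -/
theorem card_bad_le_sum (hn : 0 < n) {t : ℕ}
    (W : Finset (Fin k × Fin n → ZMod 2)) :
    ((univ.filter fun y : Fin M → Fin k → Fin n => ¬ Good t W y).card : ℝ) ≤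
      (univ : Finset (Fin M → Fin k → Fin n)).card *
        (∑ f ∈ Ico 1 t, Tm k M n f + W.card * ∑ f ∈ Ico t (2 * t), Tm k M n f) := by
  have hall : (univ.filter fun y : Fin M → Fin k → Fin n => ¬ Good t W y) ⊆
      ((univ.filter fun x : Fin M → ZMod 2 => 1 ≤ hammingNorm x ∧ hammingNorm x < t).biUnion
        fun x => univ.filter fun y => x ᵥ* mat y = 0) ∪
      ((univ.filter fun x : Fin M → ZMod 2 => t ≤ hammingNorm x ∧ hammingNorm x < 2 * t).biUnion
        fun x => W.biUnion fun w => univ.filter fun y => x ᵥ* mat y = w) := by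
    intro y hbad
    rw [mem_filter] at hbad
    by_contra hy
    rw [mem_union, not_or] at hy
    apply hbad.2
    refine ⟨fun x hx0 hxt h0 => hy.1 ?_, fun x hx1 hx2 hxV => hy.2 ?_⟩
    · rw [mem_biUnion]
      refine ⟨x, ?_, ?_⟩
      · rw [mem_filter]
        exact ⟨mem_univ _, hammingNorm_pos_iff.2 hx0, hxt⟩
      · rw [mem_filter]
        exact ⟨mem_univ _, h0⟩
    · rw [mem_biUnion]
      refine ⟨x, ?_, ?_⟩
      · rw [mem_filter]
        exact ⟨mem_univ _, hx1, hx2⟩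
      · rw [mem_biUnion]
        refine ⟨_, hxV, ?_⟩
        rw [mem_filter]
        exact ⟨mem_univ _, rfl⟩
  set A : ℝ := ((univ : Finset (Fin M → Fin k → Fin n)).card : ℝ) with hA
  have hA0 : 0 ≤ A := Nat.cast_nonneg _
  have hle := (card_le_card hall).trans (card_union_le _ _)
  have hle2 : ((univ.filter fun y : Fin M → Fin k → Fin n => ¬ Good t W y).card : ℝ) ≤
      ∑ x ∈ univ.filter (fun x : Fin M → ZMod 2 => 1 ≤ hammingNorm x ∧ hammingNorm x < t),
        A * R n (hammingNorm x) ^ k +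
      ∑ x ∈ univ.filter (fun x : Fin M → ZMod 2 => t ≤ hammingNorm x ∧ hammingNorm x < 2 * t),
        W.card * (A * R n (hammingNorm x) ^ k) := by
    refine (Nat.cast_le.2 hle).trans ?_
    rw [Nat.cast_add]
    refine add_le_add ?_ ?_
    · refine (Nat.cast_le.2 card_biUnion_le).trans ?_
      rw [Nat.cast_sum]
      refine sum_le_sum fun x _ => ?_
      exact card_systems_le hn x 0
    · refine (Nat.cast_le.2 card_biUnion_le).trans ?_
      rw [Nat.cast_sum]
      refine sum_le_sum fun x _ => ?_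
      refine (Nat.cast_le.2 card_biUnion_le).trans ?_
      rw [Nat.cast_sum, ← nsmul_eq_mul, ← sum_const]
      refine sum_le_sum fun w _ => card_systems_le hn x w
  have hs1 := sum_by_norm (M := M) 1 t (fun f => A * R n f ^ k)
    (fun f => mul_nonneg hA0 (pow_nonneg (R_nonneg n f) k))
  have hs2 := sum_by_norm (M := M) t (2 * t) (fun f => W.card * (A * R n f ^ k))
    (fun f => mul_nonneg (Nat.cast_nonneg _) (mul_nonneg hA0 (pow_nonneg (R_nonneg n f) k)))
  refine hle2.trans ((add_le_add hs1 hs2).trans (le_of_eq ?_))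
  unfold Tm
  rw [mul_add, mul_sum, mul_sum, mul_sum]
  congr 1
  · refine sum_congr rfl fun f _ => ?_
    ring
  · refine sum_congr rfl fun f _ => ?_
    ring

theorem exp_one_lt_three : Real.exp 1 < 3 := by
  have := Real.exp_one_lt_d9
  linarith

/-- Few equations. -/
theorem Tm_small {κ Δ f : ℕ} (hk : k = 2 * κ) (hκ : 0 < κ) (hM : M = Δ * k * n) (hn : 0 < n)
    (hf : 0 < f) :
    Tm k M n f ≤ 4 ^ κ *
      (Real.exp 1 ^ 2 * Δ * k * (Real.exp 1 * f / n) ^ (κ - 1)) ^ f := by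
  have hn' : (0 : ℝ) < n := by exact_mod_cast hn
  have hf' : (0 : ℝ) < f := by exact_mod_cast hf
  have h1 := choose_le (M := M) hf
  have h2 : R n f ^ k ≤ (4 * (Real.exp 1 * f / n) ^ f) ^ κ := by
    rw [hk, pow_mul]
    exact pow_le_pow_left₀ (by positivity) (R_sq_le hn hf) κ
  unfold Tm
  calc (M.choose f : ℝ) * R n f ^ k
      ≤ (Real.exp 1 * M / f) ^ f * (4 * (Real.exp 1 * f / n) ^ f) ^ κ := by
        refine mul_le_mul h1 h2 (pow_nonneg (R_nonneg n f) k) (by positivity)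
    _ = 4 ^ κ * (Real.exp 1 * M / f * (Real.exp 1 * f / n) ^ κ) ^ f := by
        rw [mul_pow, mul_pow (Real.exp 1 * M / f), ← pow_mul, ← pow_mul, mul_comm f κ]
        ring
    _ = _ := by
        congr 2
        obtain ⟨c, rfl⟩ : ∃ c, κ = c + 1 := ⟨κ - 1, by omega⟩
        have hM' : (M : ℝ) = Δ * k * n := by
          rw [hM]
          push_cast
          ring
        rw [hM', pow_succ, Nat.add_sub_cancel]
        field_simp

/-- A medium number of equations. -/
theorem Tm_medium {C Δ f : ℕ} (hM : M = Δ * k * n) (hn : 0 < n) (hΔ : 0 < Δ) (hk : 0 < k)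
    (hf1 : n < 16 * f) (hf2 : f ≤ C * n)
    (h : (16 * Real.exp 1 * Δ * k) ^ C * (19 / 20 : ℝ) ^ k ≤ 1 / 4) :
    Tm k M n f ≤ 2 ^ k * (1 / 4) ^ n := by
  have hn' : (0 : ℝ) < n := by exact_mod_cast hn
  have hf0 : 0 < f := by omega
  have hf' : (0 : ℝ) < f := by exact_mod_cast hf0
  have hΔ' : (1 : ℝ) ≤ Δ := by exact_mod_cast hΔ
  have hk' : (1 : ℝ) ≤ k := by exact_mod_cast hk
  have hM' : (M : ℝ) = Δ * k * n := by
    rw [hM]
    push_cast
    ring
  have hf1' : (n : ℝ) ≤ 16 * f := by exact_mod_cast hf1.le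
  have he : (1 : ℝ) ≤ Real.exp 1 := by
    have := Real.add_one_le_exp (1 : ℝ)
    linarith
  have hbase : (1 : ℝ) ≤ 16 * Real.exp 1 * Δ * k := by
    have h1 : (1 : ℝ) ≤ Real.exp 1 * Δ := by nlinarith
    have h2 : (1 : ℝ) ≤ Real.exp 1 * Δ * k := by nlinarith
    linarith
  have h1 : (M.choose f : ℝ) ≤ (16 * Real.exp 1 * Δ * k) ^ (C * n) := by
    refine (choose_le hf0).trans ?_
    refine (pow_le_pow_left₀ (by positivity) (?_ : Real.exp 1 * M / f ≤
      16 * Real.exp 1 * Δ * k) f).trans (pow_le_pow_right₀ hbase hf2)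
    rw [div_le_iff₀ hf', hM']
    calc Real.exp 1 * (Δ * k * n) = Real.exp 1 * Δ * k * n := by ring
      _ ≤ Real.exp 1 * Δ * k * (16 * f) := by gcongr
      _ = _ := by ring
  have h2 : R n f ≤ 2 * (19 / 20 : ℝ) ^ n := by
    refine (R_le hn f).trans (mul_le_mul_of_nonneg_left ?_ (by norm_num))
    refine pow_le_pow_left₀ (by positivity) ?_ n
    have h3 : Real.exp (-(2 * f / n : ℝ)) ≤ 9 / 10 := by
      have h4 : (1 : ℝ) / 8 ≤ 2 * f / n := by
        rw [le_div_iff₀ hn']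
        linarith
      have h5 : Real.exp (-(2 * f / n : ℝ)) ≤ Real.exp (-(1 / 8)) :=
        Real.exp_le_exp.2 (by linarith)
      refine h5.trans ?_
      rw [Real.exp_neg, inv_le_comm₀ (Real.exp_pos _) (by norm_num)]
      have h6 := Real.add_one_le_exp (1 / 8 : ℝ)
      linarith
    linarith
  have h3 : R n f ^ k ≤ (2 * (19 / 20 : ℝ) ^ n) ^ k := pow_le_pow_left₀ (R_nonneg n f) h2 k
  unfold Tm
  calc (M.choose f : ℝ) * R n f ^ k
      ≤ (16 * Real.exp 1 * Δ * k) ^ (C * n) * (2 * (19 / 20 : ℝ) ^ n) ^ k :=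
        mul_le_mul h1 h3 (pow_nonneg (R_nonneg n f) k) (by positivity)
    _ = 2 ^ k * ((16 * Real.exp 1 * Δ * k) ^ C * (19 / 20 : ℝ) ^ k) ^ n := by
        generalize (16 * Real.exp 1 * (Δ : ℝ) * k) = a
        rw [mul_pow 2, mul_pow (a ^ C), ← pow_mul, ← pow_mul, ← pow_mul, mul_comm n k]
        ring
    _ ≤ 2 ^ k * (1 / 4) ^ n := by
        gcongr

/-- A large number of equations. -/
theorem Tm_large {C Δ f : ℕ} {δ : ℝ} (hM : M = Δ * k * n) (hn : 0 < n) (hΔ : 0 < Δ) (hk : 0 < k)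
    (hC : 0 < C) (hf1 : C * n ≤ f) (hf2 : f ≤ 2 * (C * n))
    (hq : 1 + Real.exp (-(2 * C)) ≤ (2 : ℝ) ^ (δ / 2))
    (h : (Real.exp 1 * Δ * k) ^ (2 * C) * ((2 : ℝ) ^ (-(δ / 2))) ^ k ≤ 1 / 4) :
    (2 : ℝ) ^ ((1 - δ) * (k * n)) * Tm k M n f ≤ 2 ^ k * (1 / 4) ^ n := by
  have hn' : (0 : ℝ) < n := by exact_mod_cast hn
  have hC' : (1 : ℝ) ≤ C := by exact_mod_cast hC
  have hf0 : 0 < f := lt_of_lt_of_le (Nat.mul_pos hC hn) hf1
  have hf' : (0 : ℝ) < f := by exact_mod_cast hf0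
  have hΔ' : (1 : ℝ) ≤ Δ := by exact_mod_cast hΔ
  have hk' : (1 : ℝ) ≤ k := by exact_mod_cast hk
  have hM' : (M : ℝ) = Δ * k * n := by
    rw [hM]
    push_cast
    ring
  have hf1' : (C : ℝ) * n ≤ f := by exact_mod_cast hf1
  have hnf : (n : ℝ) ≤ f := by nlinarith
  have he : (1 : ℝ) ≤ Real.exp 1 := by
    have := Real.add_one_le_exp (1 : ℝ)
    linarith
  have hbase : (1 : ℝ) ≤ Real.exp 1 * Δ * k := by
    have h1 : (1 : ℝ) ≤ Real.exp 1 * Δ := by nlinarith
    nlinarith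
  have h1 : (M.choose f : ℝ) ≤ (Real.exp 1 * Δ * k) ^ (2 * (C * n)) := by
    refine (choose_le hf0).trans ?_
    refine (pow_le_pow_left₀ (by positivity) (?_ : Real.exp 1 * M / f ≤
      Real.exp 1 * Δ * k) f).trans (pow_le_pow_right₀ hbase hf2)
    rw [div_le_iff₀ hf', hM']
    calc Real.exp 1 * (Δ * k * n) = Real.exp 1 * Δ * k * n := by ring
      _ ≤ Real.exp 1 * Δ * k * f := by gcongr
  have h2 : R n f ≤ 2 * ((2 : ℝ) ^ (δ / 2 - 1)) ^ n := by
    refine (R_le hn f).trans (mul_le_mul_of_nonneg_left ?_ (by norm_num))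
    refine pow_le_pow_left₀ (by positivity) ?_ n
    have h3 : Real.exp (-(2 * f / n : ℝ)) ≤ Real.exp (-(2 * C)) := by
      refine Real.exp_le_exp.2 (neg_le_neg ?_)
      rw [le_div_iff₀ hn']
      linarith
    rw [Real.rpow_sub (by norm_num), Real.rpow_one]
    linarith
  have h3 : R n f ^ k ≤ (2 * ((2 : ℝ) ^ (δ / 2 - 1)) ^ n) ^ k :=
    pow_le_pow_left₀ (R_nonneg n f) h2 k
  unfold Tm
  have hpos : (0 : ℝ) < (2 : ℝ) ^ ((1 - δ) * (k * n)) := Real.rpow_pos_of_pos (by norm_num) _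
  calc (2 : ℝ) ^ ((1 - δ) * (k * n)) * ((M.choose f : ℝ) * R n f ^ k)
      ≤ (2 : ℝ) ^ ((1 - δ) * (k * n)) * ((Real.exp 1 * Δ * k) ^ (2 * (C * n)) *
        (2 * ((2 : ℝ) ^ (δ / 2 - 1)) ^ n) ^ k) :=
        mul_le_mul_of_nonneg_left
          (mul_le_mul h1 h3 (pow_nonneg (R_nonneg n f) k) (by positivity)) hpos.le
    _ = 2 ^ k * ((Real.exp 1 * Δ * k) ^ (2 * C) * ((2 : ℝ) ^ (-(δ / 2))) ^ k) ^ n := by
        have e1 : (2 : ℝ) ^ ((1 - δ) * (k * n)) * (((2 : ℝ) ^ (δ / 2 - 1)) ^ n) ^ k =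
            (((2 : ℝ) ^ (-(δ / 2))) ^ k) ^ n := by
          rw [← pow_mul, ← pow_mul, ← Real.rpow_natCast, ← Real.rpow_natCast,
            ← Real.rpow_mul (by norm_num), ← Real.rpow_mul (by norm_num),
            ← Real.rpow_add (by norm_num)]
          congr 1
          push_cast
          ring
        generalize (Real.exp 1 * (Δ : ℝ) * k) = a
        rw [mul_pow (a ^ (2 * C)), ← e1, mul_pow 2, ← pow_mul a, mul_assoc 2 C n]
        ring
    _ ≤ 2 ^ k * (1 / 4) ^ n := by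
        gcongr

end Pool.Agent.H429R4.KS
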