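import Pool.Agent.H429R4.KS.Params
import Pool.Agent.H429R4.Sem.Main

/-!
# Satisfiable and far from satisfiable `k`-CNF formulas look the same to circuits with few wirings
-/

namespace Pool.Agent.H429R4.KS

open Matrix Finset
open Pool.Agent.H525R2.Sym (Clause Holds Satisfiable numTrue bits change)
open Pool.Agent.H525R2
open Pool.Agent.H429R4.Sem (Circuit abs_card_sub_le)

set_option linter.unusedSectionVars false

theorem two_pow_mul_exp_lt {e : ℝ} {Δ N M : ℕ} (hM : M = Δ * N) (hN : 0 < N)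
    (hΔ : 2 / e ^ 2 ≤ Δ) (he : 0 < e) :
    (2 : ℝ) ^ N * Real.exp (-(2 * e ^ 2 * M)) < 1 := by
  have hN' : (0 : ℝ) < N := by exact_mod_cast hN
  have h1 : (2 : ℝ) ^ N = Real.exp (N * Real.log 2) := by
    have h2 : (2 : ℝ) = Real.exp (Real.log 2) := (Real.exp_log (by norm_num)).symm
    conv_lhs => rw [h2]
    rw [← Real.exp_nat_mul]
  rw [h1, ← Real.exp_add, Real.exp_lt_one_iff]
  have h3 := Real.log_two_lt_d9
  have h4 : (M : ℝ) = Δ * N := by
    rw [hM]
    push_cast
    ring
  have h5 : 2 ≤ e ^ 2 * Δ := by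
    rw [div_le_iff₀ (by positivity)] at hΔ
    linarith
  rw [h4]
  nlinarith

open Classical in
/-- Main theorem for `k`-CNF formulas, with the optimal exponent. -/
theorem indistinguishable {δ ε η : ℝ} (hδ : 0 < δ) (hε : 0 < ε) (hη : 0 < η) :
    ∃ k K : ℕ, ∀ (V : Type) [Fintype V] [DecidableEq V] (Γ : AddSubgroup (V → ZMod 2)),
      K ≤ Nat.card Γ →
      ∃ (Ω : Type) (_ : Fintype Ω) (_ : Nonempty Ω) (φ ψ : Ω → Finset (Clause V)),
        (∀ ω, IsKCNF k (φ ω) ∧ IsKCNF k (ψ ω) ∧ (φ ω).card = (ψ ω).card ∧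
          0 < (ψ ω).card ∧ (ψ ω).card ≤ K * Fintype.card V ∧ Satisfiable (φ ω) ∧
          ∀ α, (numTrue α (ψ ω) : ℝ) ≤ (1 - (1 - ε) / 2 ^ k) * (ψ ω).card) ∧
        ∀ (D L : Type) (C : Circuit (Clause V) D L) (acc : Set D),
          (numWirings k C Γ : ℝ) ≤ (Nat.card Γ : ℝ) ^ (1 - δ) →
          |((univ.filter fun ω => C.output (bits (φ ω)) ∈ acc).card : ℝ) -
            (univ.filter fun ω => C.output (bits (ψ ω)) ∈ acc).card| ≤ η * Fintype.card Ω := by
  set δ' := min δ 1 with hδ'
  have hδ'0 : 0 < δ' := lt_min hδ one_pos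
  set e := ε / 2 with he
  have he0 : 0 < e := by positivity
  obtain ⟨Δ, hΔ⟩ : ∃ Δ : ℕ, 2 / e ^ 2 ≤ Δ := exists_nat_ge _
  have hΔ0 : 0 < Δ := by
    have h1 : (0 : ℝ) < 2 / e ^ 2 := by positivity
    exact_mod_cast lt_of_lt_of_le h1 hΔ
  set η₀ := min (η / 4) (1 / 4) with hη₀
  have hη₀0 : 0 < η₀ := lt_min (by linarith) (by norm_num)
  obtain ⟨k, C₀, N₀, hk0, hC0, hpar⟩ := exists_params hδ'0 hη₀0 hΔ0
  refine ⟨k, 2 ^ (k * (N₀ + 1)) + 2 ^ (k - 1) * Δ, fun V _ _ Γ hΓ => ?_⟩
  set K := 2 ^ (k * (N₀ + 1)) + 2 ^ (k - 1) * Δ with hK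
  -- the letters on which the group acts arbitrarily
  obtain ⟨I, hI, hcard⟩ := Sym.exists_shattered (Γ : Set (V → ZMod 2)) Γ.zero_mem
    (fun s hs s' hs' => Γ.add_mem hs hs')
  have hΓI : Nat.card Γ ≤ 2 ^ I.card := hcard
  have hIk : k * (N₀ + 1) ≤ I.card := by
    have h1 : 2 ^ (k * (N₀ + 1)) ≤ 2 ^ I.card :=
      (Nat.le_add_right _ _).trans (hΓ.trans hΓI)
    exact (Nat.pow_le_pow_iff_right (by norm_num)).1 h1
  set n := I.card / k with hndef
  have hnN : N₀ ≤ n := by
    have : N₀ + 1 ≤ n := (Nat.le_div_iff_mul_le hk0).2 (by rw [mul_comm]; exact hIk)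
    omega
  have hkn : k * n ≤ I.card := Nat.mul_div_le _ _
  have hkn' : I.card < k * (n + 1) := Nat.lt_mul_div_succ _ hk0
  obtain ⟨hn3, hpar⟩ := hpar n hnN
  have hn : 0 < n := by omega
  set M := Δ * k * n with hMdef
  obtain ⟨hp1, hp2⟩ := hpar M hMdef
  have hM0 : 0 < M := Nat.mul_pos (Nat.mul_pos hΔ0 hk0) hn
  set t := C₀ * n with htdef
  have ht3 : 3 ≤ t := by
    rw [htdef]
    nlinarith
  obtain ⟨em⟩ : Nonempty (Fin k × Fin n ↪ I) := by
    refine Function.Embedding.nonempty_of_card_le ?_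
    rw [Fintype.card_prod, Fintype.card_fin, Fintype.card_fin, Fintype.card_coe]
    exact hkn
  let ι : Fin k × Fin n ↪ V := em.trans (Function.Embedding.subtype _)
  have hι : ∀ p, ι p ∈ I := fun p => (em p).2
  have hsh : ∀ u : Fin k × Fin n → ZMod 2, ∃ s ∈ Γ, (fun p => s (ι p)) = u := by
    intro u
    obtain ⟨s, hs, hs'⟩ := hI (Function.extend ι u 0)
    refine ⟨s, hs, funext fun p => ?_⟩
    rw [hs' _ (hι p), ι.injective.extend_apply]
  let Y := Fin M → Fin k → Fin n
  let U := Fin k × Fin n → ZMod 2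
  let Ω₁ := {y : Y // ∀ x : Fin M → ZMod 2, x ≠ 0 → hammingNorm x < t → x ᵥ* mat y ≠ 0}
  have hYcard : (0 : ℝ) < (univ : Finset Y).card := by
    have hne : (univ : Finset Y).Nonempty := ⟨fun _ _ => ⟨0, hn⟩, mem_univ _⟩
    exact_mod_cast hne.card_pos
  have hbadW : ∀ W : Finset U, (W.card : ℝ) ≤ (2 : ℝ) ^ k * (2 : ℝ) ^ ((1 - δ') * (k * n)) →
      ((univ.filter fun y : Y => ¬ Good t W y).card : ℝ) ≤ 2 * η₀ * (univ : Finset Y).card := by
    intro W hW
    refine (card_bad_le_sum hn W).trans ?_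
    rw [mul_comm]
    refine mul_le_mul_of_nonneg_right ?_ hYcard.le
    have h1 : (W.card : ℝ) * ∑ f ∈ Ico t (2 * t), Tm k M n f ≤ η₀ := by
      refine (mul_le_mul_of_nonneg_right hW ?_).trans hp2
      exact sum_nonneg fun f _ => Tm_nonneg k M n f
    linarith
  -- most systems have no small dependencies
  have hΩ₁ : ((univ : Finset Y).card : ℝ) ≤ 2 * Fintype.card Ω₁ := by
    have h1 := hbadW ∅ (by
      rw [card_empty, Nat.cast_zero]
      positivity)
    have h2 : (univ : Finset Y).card ≤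
        (univ.filter fun y : Y => ¬ Good t (∅ : Finset U) y).card + Fintype.card Ω₁ := by
      rw [← card_filter_add_card_filter_not (s := (univ : Finset Y))
        (fun y : Y => ¬ Good t (∅ : Finset U) y)]
      refine Nat.add_le_add_left ?_ _
      rw [Fintype.card_subtype]
      refine card_le_card fun y hy => ?_
      rw [mem_filter, not_not] at hy
      rw [mem_filter]
      exact ⟨mem_univ _, hy.2.1⟩
    have h3 : ((univ : Finset Y).card : ℝ) ≤
        (univ.filter fun y : Y => ¬ Good t (∅ : Finset U) y).card + Fintype.card Ω₁ := by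
      exact_mod_cast h2
    have h4 : 2 * η₀ * (univ : Finset Y).card ≤ 1 / 2 * (univ : Finset Y).card := by
      refine mul_le_mul_of_nonneg_right ?_ hYcard.le
      have := min_le_right (η / 4) (1 / 4)
      linarith
    have h5 := h1.trans h4
    linarith
  have hΩ₁pos : (0 : ℝ) < Fintype.card Ω₁ := by linarith
  have hΩ₁ne : Nonempty Ω₁ := by
    rw [← Fintype.card_pos_iff]
    exact_mod_cast hΩ₁pos
  -- far right-hand sides
  have hfar : ∀ y : Y, ∃ b : Fin M → ZMod 2, ∀ α : U,
      ((univ.filter fun j => (mat y *ᵥ α) j = b j).card : ℝ) ≤ (1 / 2 + e) * M := by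
    intro y
    refine Sym.exists_far (mat y) he0 ?_
    rw [Fintype.card_prod, Fintype.card_fin, Fintype.card_fin]
    exact two_pow_mul_exp_lt (Δ := Δ) (by rw [hMdef, mul_assoc]) (Nat.mul_pos hk0 hn) hΔ he0
  choose far hfar using hfar
  have hinj : ∀ y : Ω₁, Function.Injective y.1 := by
    intro y j j' h
    by_contra hjj
    refine y.2 (Pi.single j 1 + Pi.single j' 1) ?_ ?_ ?_
    · intro h0
      have := congrFun h0 j
      rw [Pi.add_apply, Pi.single_eq_same, Pi.single_eq_of_ne hjj] at this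
      simp at this
    · refine lt_of_le_of_lt ?_ (lt_of_lt_of_le (by norm_num : 2 < 3) ht3)
      unfold hammingNorm
      refine le_trans (card_le_card (t := {j, j'}) fun i hi => ?_) (card_le_two)
      rw [mem_insert, mem_singleton]
      by_contra hcon
      rw [not_or] at hcon
      rw [mem_filter, Pi.add_apply, Pi.single_eq_of_ne hcon.1, Pi.single_eq_of_ne hcon.2] at hi
      simp at hi
    · rw [Matrix.add_vecMul, single_one_vecMul, single_one_vecMul]
      have h1 : mat y.1 j = mat y.1 j' := by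
        funext p
        unfold mat
        rw [h]
      have h2 : (mat y.1).row j = (mat y.1).row j' := h1
      rw [h2, Sym.add_self_fun]
  refine ⟨Ω₁ × U, inferInstance, inferInstance,
    fun ω => sys ι ω.1.1 (mat ω.1.1 *ᵥ ω.2),
    fun ω => sys ι ω.1.1 (far ω.1.1 + mat ω.1.1 *ᵥ ω.2), ?_, ?_⟩
  · rintro ⟨y, u⟩
    simp only
    obtain ⟨s, -, hs⟩ := hsh u
    have hpow : 0 < 2 ^ (k - 1) := by positivity
    refine ⟨sys_kcnf ι _ _, sys_kcnf ι _ _, ?_, ?_, ?_, ?_, ?_⟩
    · rw [card_sys ι hk0 (hinj y), card_sys ι hk0 (hinj y)]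
    · rw [card_sys ι hk0 (hinj y)]
      exact Nat.mul_pos hpow hM0
    · rw [card_sys ι hk0 (hinj y)]
      have h1 : I.card ≤ Fintype.card V := card_le_univ I
      calc 2 ^ (k - 1) * M = 2 ^ (k - 1) * Δ * (k * n) := by rw [hMdef]; ring
        _ ≤ K * Fintype.card V := Nat.mul_le_mul (Nat.le_add_left _ _) (hkn.trans h1)
    · have h1 := flip_sysF ι s y.1 0
      have h2 := congrArg Subtype.val h1
      unfold sysF flip at h2
      simp only at h2
      rw [zero_add, hs] at h2
      rw [← h2]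
      obtain ⟨α, hα⟩ := sys_zero_satisfiable ι y.1
      refine ⟨α + s, fun c hc => ?_⟩
      rw [mem_image] at hc
      obtain ⟨c, hc, rfl⟩ := hc
      obtain ⟨l, hl, hl'⟩ := hα c hc
      refine ⟨(l.1, l.2 + s l.1), ?_, ?_⟩
      · unfold change
        exact mem_image_of_mem _ hl
      · change α l.1 + s l.1 = l.2 + s l.1
        rw [hl']
    · intro α
      rw [card_sys ι hk0 (hinj y)]
      have h1 := numTrue_le ι hk0 y.1 (far y.1 + mat y.1 *ᵥ u) α
      have h2 := hfar y.1 ((fun p => α (ι p)) + u)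
      have h3 : (univ.filter fun j => (mat y.1 *ᵥ fun p => α (ι p)) j =
            (far y.1 + mat y.1 *ᵥ u) j) =
          univ.filter fun j => (mat y.1 *ᵥ ((fun p => α (ι p)) + u)) j = far y.1 j := by
        refine filter_congr fun j _ => ?_
        rw [Matrix.mulVec_add, Pi.add_apply, Pi.add_apply]
        generalize (mat y.1 *ᵥ fun p => α (ι p)) j = v₁
        generalize (mat y.1 *ᵥ u) j = v₂
        generalize far y.1 j = v₃
        revert v₁ v₂ v₃
        decide
      rw [h3] at h1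
      have h4 : (numTrue α (sys ι y.1 (far y.1 + mat y.1 *ᵥ u)) : ℝ) ≤
          ((2 ^ (k - 1) - 1 : ℕ) : ℝ) * M +
          ((univ.filter fun j =>
            (mat y.1 *ᵥ ((fun p => α (ι p)) + u)) j = far y.1 j).card : ℝ) := by
        exact_mod_cast h1
      have h5 : (0 : ℝ) < M := by exact_mod_cast hM0
      have h6 : ((2 ^ (k - 1) - 1 : ℕ) : ℝ) = 2 ^ (k - 1) - 1 := by
        rw [Nat.cast_sub hpow]
        push_cast
        rfl
      have h7 : (2 : ℝ) ^ k = 2 * 2 ^ (k - 1) := by
        rw [← pow_succ']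
        congr 1
        omega
      have h8 : (0 : ℝ) < 2 ^ (k - 1) := by positivity
      rw [h6] at h4
      push_cast
      have h9 : (1 - (1 - ε) / (2 : ℝ) ^ k) * (2 ^ (k - 1) * M) =
          2 ^ (k - 1) * M - (1 - ε) / 2 * M := by
        rw [h7]
        field_simp
      rw [h9]
      have h10 : (1 / 2 + e) * M = 1 / 2 * M + ε / 2 * M := by
        rw [he]
        ring
      nlinarith
  · intro D L C acc hKS
    have hΓ1 : (1 : ℝ) ≤ Nat.card Γ := by
      have : 0 < Nat.card Γ := Nat.card_pos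
      exact_mod_cast this
    have hW : ((visible ι Γ C).card : ℝ) ≤ (2 : ℝ) ^ k * (2 : ℝ) ^ ((1 - δ') * (k * n)) := by
      have h1 : ((visible ι Γ C).card : ℝ) ≤ numWirings k C Γ := by
        exact_mod_cast card_visible_le ι Γ C hsh
      refine h1.trans (hKS.trans ?_)
      have h2 : (Nat.card Γ : ℝ) ^ (1 - δ) ≤ (Nat.card Γ : ℝ) ^ (1 - δ') := by
        refine Real.rpow_le_rpow_of_exponent_le hΓ1 ?_
        have := min_le_left δ 1
        linarith
      refine h2.trans ?_
      have h3 : (0 : ℝ) ≤ 1 - δ' := by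
        have := min_le_right δ 1
        linarith
      have h4 : (Nat.card Γ : ℝ) ≤ (2 : ℝ) ^ (k * (n + 1)) := by
        have h5 : Nat.card Γ ≤ 2 ^ (k * (n + 1)) :=
          hΓI.trans (Nat.pow_le_pow_right (by norm_num) hkn'.le)
        exact_mod_cast h5
      have h5 := Real.rpow_le_rpow (by positivity) h4 h3
      refine h5.trans ?_
      rw [← Real.rpow_natCast, ← Real.rpow_natCast, ← Real.rpow_mul (by norm_num),
        ← Real.rpow_add (by norm_num)]
      refine Real.rpow_le_rpow_of_exponent_le (by norm_num) ?_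
      push_cast
      have h6 : (0 : ℝ) ≤ k := Nat.cast_nonneg k
      nlinarith
    have hbad := hbadW (visible ι Γ C) hW
    have hex : ∀ y : Ω₁, ∃ u₀ : U, Good t (visible ι Γ C) y.1 → ∀ u,
        C.output (bits (sys ι y.1 (mat y.1 *ᵥ (u + u₀)))) =
          C.output (bits (sys ι y.1 (far y.1 + mat y.1 *ᵥ u))) := by
      intro y
      by_cases hy : Good t (visible ι Γ C) y.1
      · obtain ⟨u₀, hu₀⟩ := exists_sign_of_good ι Γ C y.1 (by omega : 1 < t) hy (far y.1)
        exact ⟨u₀, fun _ => hu₀⟩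
      · exact ⟨0, fun h => absurd h hy⟩
    choose u₀ hu₀ using hex
    let σ : Equiv.Perm (Ω₁ × U) := Function.Involutive.toPerm
      (fun ω => (ω.1, ω.2 + u₀ ω.1)) (by
        rintro ⟨y, u⟩
        simp only
        rw [add_assoc, Sym.add_self_fun, add_zero])
    refine (abs_card_sub_le σ _ _ (fun ω => ¬ Good t (visible ι Γ C) ω.1.1) ?_).trans ?_
    · rintro ⟨y, u⟩ hy
      rw [not_not] at hy
      change C.output (bits (sys ι y.1 (mat y.1 *ᵥ (u + u₀ y)))) ∈ acc ↔
        C.output (bits (sys ι y.1 (far y.1 + mat y.1 *ᵥ u))) ∈ acc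
      rw [hu₀ y hy u]
    · have h1 : (univ.filter fun ω : Ω₁ × U => ¬ Good t (visible ι Γ C) ω.1.1) =
          (univ.filter fun y : Ω₁ => ¬ Good t (visible ι Γ C) y.1) ×ˢ (univ : Finset U) := by
        ext ω
        simp
      rw [h1, card_product, Fintype.card_prod]
      have h2 : (univ.filter fun y : Ω₁ => ¬ Good t (visible ι Γ C) y.1).card ≤
          (univ.filter fun y : Y => ¬ Good t (visible ι Γ C) y).card := by
        refine card_le_card_of_injOn (fun y => y.1) ?_ ?_
        · intro y hy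
          rw [mem_coe, mem_filter] at hy ⊢
          exact ⟨mem_univ _, hy.2⟩
        · intro y _ y' _ h
          exact Subtype.ext h
      have h3 : ((univ.filter fun y : Ω₁ => ¬ Good t (visible ι Γ C) y.1).card : ℝ) ≤
          η * Fintype.card Ω₁ := by
        calc ((univ.filter fun y : Ω₁ => ¬ Good t (visible ι Γ C) y.1).card : ℝ)
            ≤ ((univ.filter fun y : Y => ¬ Good t (visible ι Γ C) y).card : ℝ) := by
              exact_mod_cast h2
          _ ≤ 2 * η₀ * (univ : Finset Y).card := hbad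
          _ ≤ 2 * (η / 4) * (univ : Finset Y).card := by
              have := min_le_left (η / 4) (1 / 4)
              gcongr
          _ ≤ 2 * (η / 4) * (2 * Fintype.card Ω₁) :=
              mul_le_mul_of_nonneg_left hΩ₁ (by linarith)
          _ = η * Fintype.card Ω₁ := by ring
      push_cast
      rw [card_univ, ← mul_assoc]
      exact mul_le_mul_of_nonneg_right h3 (by positivity)

end Pool.Agent.H429R4.KS
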