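import Pool.Agent.H429R4.KS.Exist

/-!
# The choice of the parameters
-/

namespace Pool.Agent.H429R4.KS

open Matrix Finset Filter

theorem eventually_poly_mul_le (p : ℕ) {r a b : ℝ} (hr0 : 0 ≤ r) (hr : r < 1) (hb : 0 < b) :
    ∀ᶠ m : ℕ in atTop, a * ((m : ℝ) ^ p * r ^ m) ≤ b := by
  have h1 := (tendsto_pow_const_mul_const_pow_of_lt_one p hr0 hr).const_mul a
  rw [mul_zero] at h1
  have h2 := h1.eventually (gt_mem_nhds hb)
  exact h2.mono fun m hm => hm.le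

theorem exists_C {γ : ℝ} (hγ : 0 < γ) : ∃ C : ℕ, 0 < C ∧ Real.exp (-(2 * C)) ≤ γ := by
  obtain ⟨C, hC⟩ := exists_nat_ge (1 / γ)
  refine ⟨C + 1, Nat.succ_pos C, ?_⟩
  have h1 := Real.add_one_le_exp (2 * ((C + 1 : ℕ) : ℝ))
  rw [Real.exp_neg, inv_le_comm₀ (Real.exp_pos _) hγ]
  push_cast at h1 ⊢
  have h2 : (0 : ℝ) ≤ C := Nat.cast_nonneg C
  rw [one_div] at hC
  linarith

theorem exists_params {δ η : ℝ} (hδ : 0 < δ) (hη : 0 < η) {Δ : ℕ} (hΔ : 0 < Δ) :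
    ∃ k C N₀ : ℕ, 0 < k ∧ 0 < C ∧ ∀ n, N₀ ≤ n → 3 ≤ n ∧ ∀ M, M = Δ * k * n →
      ∑ f ∈ Ico 1 (C * n), Tm k M n f ≤ η ∧
      (2 : ℝ) ^ k * (2 : ℝ) ^ ((1 - δ) * (k * n)) *
        ∑ f ∈ Ico (C * n) (2 * (C * n)), Tm k M n f ≤ η := by
  have hΔ' : (1 : ℝ) ≤ Δ := by exact_mod_cast hΔ
  have hγ : 0 < (2 : ℝ) ^ (δ / 2) - 1 := by
    have := Real.one_lt_rpow (by norm_num : (1 : ℝ) < 2) (by positivity : 0 < δ / 2)
    linarith
  obtain ⟨C, hC0, hC⟩ := exists_C hγ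
  have hq : 1 + Real.exp (-(2 * C)) ≤ (2 : ℝ) ^ (δ / 2) := by linarith
  have hr4 : ((2 : ℝ) ^ (-(δ / 2))) ^ 2 < 1 := by
    have h1 : (2 : ℝ) ^ (-(δ / 2)) < 1 :=
      Real.rpow_lt_one_of_one_lt_of_neg (by norm_num) (by linarith)
    have h2 : 0 < (2 : ℝ) ^ (-(δ / 2)) := Real.rpow_pos_of_pos (by norm_num) _
    nlinarith
  have e1 := eventually_poly_mul_le 1 (r := 1 / 5) (a := 10 * Real.exp 1 ^ 2 * Δ) (b := 1 / 2)
    (by norm_num) (by norm_num) (by norm_num)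
  have e2 := eventually_poly_mul_le 2 (r := 4 / 25) (a := 2 * (10 * Real.exp 1 ^ 2 * Δ) ^ 2)
    (b := η / 4) (by norm_num) (by norm_num) (by positivity)
  have e3 := eventually_poly_mul_le C (r := (19 / 20) ^ 2) (a := (32 * Real.exp 1 * Δ) ^ C)
    (b := 1 / 4) (by norm_num) (by norm_num) (by norm_num)
  have e4 := eventually_poly_mul_le (2 * C) (r := ((2 : ℝ) ^ (-(δ / 2))) ^ 2)
    (a := (2 * Real.exp 1 * Δ) ^ (2 * C)) (b := 1 / 4) (by positivity) hr4 (by norm_num)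
  obtain ⟨κ, ⟨⟨⟨⟨h1, h2⟩, h3⟩, h4⟩, hκ⟩⟩ :=
    ((((e1.and e2).and e3).and e4).and (eventually_ge_atTop 2)).exists
  set k := 2 * κ with hk
  have hk0 : 0 < k := by omega
  have hkr : (k : ℝ) = 2 * κ := by
    rw [hk]
    push_cast
    ring
  set β : ℝ := Real.exp 1 ^ 2 * Δ * k * (1 / 5) ^ (κ - 1) with hβ
  have hβ' : β = 10 * Real.exp 1 ^ 2 * Δ * ((κ : ℝ) ^ 1 * (1 / 5) ^ κ) := by
    obtain ⟨c, hc⟩ : ∃ c, κ = c + 1 := ⟨κ - 1, by omega⟩
    have hpow : ((1 : ℝ) / 5) ^ κ = (1 / 5) ^ (κ - 1) * (1 / 5) := by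
      rw [← pow_succ]
      congr 1
      omega
    rw [hβ, hkr, hpow]
    ring
  have hβ0 : 0 ≤ β := by positivity
  have hβ1 : β ≤ 1 / 2 := by
    rw [hβ']
    exact h1
  have hβ2 : 2 * (4 ^ κ * β ^ 2) ≤ η / 4 := by
    refine le_trans (le_of_eq ?_) h2
    rw [hβ', mul_pow, mul_pow _ ((1 / 5 : ℝ) ^ κ), ← pow_mul (1 / 5 : ℝ), mul_comm κ 2,
      pow_mul (1 / 5 : ℝ)]
    have : ((4 : ℝ) / 25) ^ κ = 4 ^ κ * ((1 / 5) ^ 2) ^ κ := by
      rw [← mul_pow]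
      norm_num
    rw [this]
    ring
  have hmed : (16 * Real.exp 1 * Δ * k) ^ C * (19 / 20 : ℝ) ^ k ≤ 1 / 4 := by
    refine le_trans (le_of_eq ?_) h3
    rw [hk, pow_mul, ← mul_assoc, ← mul_pow]
    push_cast
    ring_nf
  have hlar : (Real.exp 1 * Δ * k) ^ (2 * C) * ((2 : ℝ) ^ (-(δ / 2))) ^ k ≤ 1 / 4 := by
    refine le_trans (le_of_eq ?_) h4
    rw [← mul_assoc, ← mul_pow, hkr, hk, pow_mul _ 2 κ]
    congr 2
    ring
  -- large `n`
  have f1 : ∀ᶠ n : ℕ in atTop, 4 ^ κ *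
      (Real.exp 1 ^ 2 * Δ * k * (Real.exp 1 / (n : ℝ)) ^ (κ - 1)) ≤ η / 4 := by
    have h5 : Tendsto (fun n : ℕ => Real.exp 1 / (n : ℝ)) atTop (nhds 0) :=
      tendsto_const_div_atTop_nhds_zero_nat _
    have h6 := ((h5.pow (κ - 1)).const_mul (Real.exp 1 ^ 2 * Δ * k)).const_mul (4 ^ κ)
    rw [zero_pow (by omega), mul_zero, mul_zero] at h6
    exact (h6.eventually (gt_mem_nhds (by positivity : 0 < η / 4))).mono fun n hn => hn.le
  have f2 := eventually_poly_mul_le 1 (r := 1 / 4) (a := C * 2 ^ k) (b := η / 4)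
    (by norm_num) (by norm_num) (by positivity)
  have f3 := eventually_poly_mul_le 1 (r := 1 / 4) (a := C * (2 ^ k * 2 ^ k)) (b := η)
    (by norm_num) (by norm_num) hη
  obtain ⟨N₀, hN₀⟩ := eventually_atTop.1
    (((f1.and f2).and f3).and (eventually_ge_atTop 32))
  refine ⟨k, C, N₀, hk0, hC0, fun n hn => ?_⟩
  obtain ⟨⟨⟨g1, g2⟩, g3⟩, g4⟩ := hN₀ n hn
  have hn0 : 0 < n := by omega
  have hn' : (32 : ℝ) ≤ n := by exact_mod_cast g4
  refine ⟨by omega, fun M hM => ⟨?_, ?_⟩⟩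
  · have hone : Tm k M n 1 ≤ η / 4 := by
      refine (Tm_small (f := 1) hk (by omega) hM hn0 one_pos).trans (le_trans (le_of_eq ?_) g1)
      push_cast
      rw [pow_one, mul_one]
    have hCn : 1 < C * n := by nlinarith
    have hsplit : ∑ f ∈ Ico 1 (C * n), Tm k M n f =
        Tm k M n 1 + ∑ f ∈ Ico 2 (C * n), Tm k M n f := by
      rw [sum_eq_sum_Ico_succ_bot hCn]
    have hterm : ∀ f ∈ Ico 2 (C * n), Tm k M n f ≤ 4 ^ κ * β ^ f + 2 ^ k * (1 / 4) ^ n := by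
      intro f hf
      rw [mem_Ico] at hf
      have hf' : (0 : ℝ) < f := by exact_mod_cast (by omega : 0 < f)
      by_cases h16 : 16 * f ≤ n
      · have h16' : 16 * (f : ℝ) ≤ n := by exact_mod_cast h16
        have h5 := Tm_small (f := f) hk (by omega) hM hn0 (by omega)
        have h6 : Real.exp 1 * f / n ≤ 1 / 5 := by
          have := exp_one_lt_three
          rw [div_le_iff₀ (by linarith)]
          nlinarith
        have h7 : (Real.exp 1 * f / n) ^ (κ - 1) ≤ (1 / 5) ^ (κ - 1) :=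
          pow_le_pow_left₀ (by positivity) h6 _
        have h8 : (Real.exp 1 ^ 2 * Δ * k * (Real.exp 1 * f / n) ^ (κ - 1)) ^ f ≤ β ^ f := by
          refine pow_le_pow_left₀ (by positivity) ?_ f
          exact mul_le_mul_of_nonneg_left h7 (by positivity)
        have h9 : (0 : ℝ) ≤ 2 ^ k * (1 / 4) ^ n := by positivity
        have h10 := mul_le_mul_of_nonneg_left h8 (by positivity : (0 : ℝ) ≤ 4 ^ κ)
        linarith
      · have h5 := Tm_medium (f := f) hM hn0 hΔ hk0 (by omega) hf.2.le hmed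
        have h9 : (0 : ℝ) ≤ 4 ^ κ * β ^ f := by positivity
        linarith
    have hgeom : ∑ f ∈ Ico 2 (C * n), β ^ f ≤ 2 * β ^ 2 := by
      refine (geom_sum_Ico_le_of_lt_one hβ0 (by linarith)).trans ?_
      rw [div_eq_mul_inv, mul_comm]
      refine mul_le_mul_of_nonneg_right ?_ (by positivity)
      rw [inv_le_comm₀ (by linarith) (by norm_num)]
      linarith
    have hsum : ∑ f ∈ Ico 2 (C * n), Tm k M n f ≤ 4 ^ κ * (2 * β ^ 2) +
        (C * n) * (2 ^ k * (1 / 4) ^ n) := by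
      refine (sum_le_sum hterm).trans ?_
      rw [sum_add_distrib, ← mul_sum, sum_const, Nat.card_Ico, nsmul_eq_mul]
      refine add_le_add (mul_le_mul_of_nonneg_left hgeom (by positivity)) ?_
      refine mul_le_mul_of_nonneg_right ?_ (by positivity)
      have h5 : ((C * n - 2 : ℕ) : ℝ) ≤ ((C * n : ℕ) : ℝ) := by
        exact_mod_cast Nat.sub_le _ _
      push_cast at h5
      exact h5
    have hlast : (C * n : ℝ) * (2 ^ k * (1 / 4) ^ n) ≤ η / 4 := by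
      refine le_trans (le_of_eq ?_) g2
      rw [pow_one]
      ring
    rw [hsplit]
    linarith
  · have hterm : ∀ f ∈ Ico (C * n) (2 * (C * n)),
        (2 : ℝ) ^ ((1 - δ) * (k * n)) * Tm k M n f ≤ 2 ^ k * (1 / 4) ^ n := by
      intro f hf
      rw [mem_Ico] at hf
      exact Tm_large hM hn0 hΔ hk0 hC0 hf.1 hf.2.le hq hlar
    rw [mul_assoc, mul_sum]
    have h5 := sum_le_sum hterm
    rw [sum_const, Nat.card_Ico, nsmul_eq_mul] at h5
    have h6 : ((2 * (C * n) - C * n : ℕ) : ℝ) = C * n := by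
      have : 2 * (C * n) - C * n = C * n := by omega
      rw [this]
      push_cast
      rfl
    rw [h6] at h5
    refine (mul_le_mul_of_nonneg_left h5 (by positivity)).trans
      (le_trans (le_of_eq ?_) g3)
    rw [pow_one]
    ring

end Pool.Agent.H429R4.KS
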