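import Pool.Agent.H429R4.KS.Avg

/-!
# Symmetric circuits have at most as many wirings as gates
-/

namespace Pool.Agent.H429R4.KS

open Finset
open Pool.Agent.H525R2.Sym (Clause Holds Satisfiable numTrue bits change)
open Pool.Agent.H525R2
open Pool.Agent.H429R4.Sem (Circuit)

variable {V D L : Type} [Fintype V] [DecidableEq V] {k : ℕ}

/-- The permutation `π` of the gates is an automorphism of the circuit that maps every input bit
`c` to the input bit `change s c`. -/
structure IsAut (C : Circuit (Clause V) D L) (s : V → ZMod 2) (π : Equiv.Perm C.Gate) : Prop where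
  read : ∀ g, C.read (π g) = (C.read g).map (change s)
  wires : ∀ g, C.wires (π g) = (C.wires g).map fun e => (e.1, π e.2)
  fn : ∀ g, C.fn (π g) = C.fn g

theorem bits_flip (s : V → ZMod 2) (φ : Formula k V) (c : Clause V) :
    bits (flip s φ).1 c = bits φ.1 (change s c) := by
  unfold bits flip
  rw [decide_eq_decide]
  simp only [mem_image]
  constructor
  · rintro ⟨c', hc', rfl⟩
    rwa [Sym.change_change]
  · intro h
    exact ⟨_, h, Sym.change_change s c⟩

theorem IsAut.value_eq {C : Circuit (Clause V) D L} {s : V → ZMod 2} {π : Equiv.Perm C.Gate}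
    (h : IsAut C s π) (g : C.Gate) (φ : Formula k V) :
    value k C (π g) φ = value k C g (flip s φ) := by
  induction hr : C.rank g using Nat.strong_induction_on generalizing g with
  | _ r ih =>
    rw [KS.value_eq, KS.value_eq, h.fn, h.read, h.wires, Option.map_map, Multiset.map_map]
    have h1 : bits φ.1 ∘ change s = bits (flip s φ).1 := funext fun c => (bits_flip s φ c).symm
    rw [h1]
    refine congrArg (C.fn g _) (Multiset.map_congr rfl fun e he => ?_)
    exact congrArg (Prod.mk e.1) (ih (C.rank e.2) (by rw [← hr]; exact C.rank_lt g e he) e.2 rfl)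

/-- In a circuit that is symmetric under `Γ` the number of wirings is at most the number of
gates. -/
theorem numWirings_le_size (C : Circuit (Clause V) D L) (Γ : AddSubgroup (V → ZMod 2))
    (h : ∀ s ∈ Γ, ∃ π, IsAut C s π) : numWirings k C Γ ≤ C.size := by
  let _ := C.finite
  have h1 : wirings k C Γ ⊆ Set.range fun g => view k C g 0 := by
    rintro _ ⟨g, s, hs, rfl⟩
    obtain ⟨π, hπ⟩ := h s hs
    refine ⟨π g, ?_⟩
    simp only [view]
    rw [hπ.read, hπ.wires, Option.map_map, Multiset.map_map]
    simp only [Function.comp_def, flip_zero, hπ.value_eq, bits_flip]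
  have h2 : Nat.card (Set.range fun g => view k C g 0) ≤ Nat.card C.Gate := by
    have := Set.finite_range fun g => view k C g 0
    exact Nat.card_le_card_of_surjective (Set.rangeFactorization fun g => view k C g 0)
      Set.rangeFactorization_surjective
  refine (Nat.card_mono (Set.finite_range _) h1).trans (h2.trans ?_)
  rw [Nat.card_eq_fintype_card]
  exact le_rfl

end Pool.Agent.H429R4.KS
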